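import Pool.Agent.Helper63.XP.StB

/-! # Project XP (MP_c973ff_an), module NRG: the norm of `F^p_r(ℤ, X, h)` -/

set_option autoImplicit false

namespace Pool.Agent.Helper78.XP

open Finset Filter Topology MeasureTheory
open scoped ENNReal
open Pool.Agent.Helper63.XP
open Pool.Agent.Helper49.KX (FS cmp tw un ev Cov MS LY Rep act nrm IsFp)

variable {p : ℝ≥0∞} [Fact (1 ≤ p)] {X : Type} [TopologicalSpace X] [CompactSpace X]

/-! ### the representation -/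

private theorem piZeroL (ρ : Rep p X) (ξ : LY p ρ.M) : ρ.π 0 ξ = 0 := by
  have h := ρ.add 0 0 ξ
  rw [add_zero] at h
  exact left_eq_add.1 h

private theorem piZeroR (ρ : Rep p X) (f : C(X, ℂ)) : ρ.π f 0 = 0 := by
  have h := (ρ.contr f).add 0 0
  rw [add_zero] at h
  exact left_eq_add.1 h

private noncomputable def piHom (ρ : Rep p X) (f : C(X, ℂ)) : LY p ρ.M →+ LY p ρ.M where
  toFun := ρ.π f
  map_zero' := piZeroR ρ f
  map_add' := (ρ.contr f).add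

omit [CompactSpace X] in
private theorem cmpZero (h : X ≃ₜ X) (n : ℤ) : cmp h n 0 = 0 := by
  ext x; simp

omit [CompactSpace X] in
private theorem cmpAdd (h : X ≃ₜ X) (n : ℤ) (f g : C(X, ℂ)) : cmp h n (f + g) = cmp h n f + cmp h n g := by
  ext x; simp

omit [CompactSpace X] in
private theorem cmpSmul (h : X ≃ₜ X) (n : ℤ) (a : ℂ) (f : C(X, ℂ)) : cmp h n (a • f) = a • cmp h n f := by
  ext x; simp

omit [CompactSpace X] in
private theorem cmpTw (h : X ≃ₜ X) (m n : ℤ) (f f' : C(X, ℂ)) :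
    cmp h m (f * cmp h (-n) f') = cmp h m f * cmp h (m - n) f' := by
  ext x
  have e : (h ^ (m - n) : X ≃ₜ X) x = (h ^ (-n) : X ≃ₜ X) ((h ^ m : X ≃ₜ X) x) := by
    rw [sub_eq_neg_add, zpow_add]
    rfl
  simp only [Pool.Agent.Helper49.KX.cmp_apply, ContinuousMap.mul_apply, e]

private theorem normCmp (h : X ≃ₜ X) (n : ℤ) (f : C(X, ℂ)) : ‖cmp h n f‖ ≤ ‖f‖ := by
  rw [ContinuousMap.norm_le _ (norm_nonneg _)]
  intro x
  rw [Pool.Agent.Helper49.KX.cmp_apply]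
  exact f.norm_coe_le_norm _

/-! ### the norm of a vector of finite support -/

section vec

variable {V : Type} [NormedAddCommGroup V]

private theorem memF (ξ : ℤ →₀ V) : Memℓp (fun m => ξ m) p := by
  by_cases hp : p = ∞
  · subst hp
    apply memℓp_infty
    have h1 : (Set.range fun m => ‖ξ m‖).Finite := by
      refine ((ξ.support.finite_toSet.image fun m => ‖ξ m‖).union (Set.finite_singleton 0)).subset ?_
      rintro _ ⟨m, rfl⟩
      by_cases hm : ξ m = 0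
      · right; simp [hm]
      · left; exact ⟨m, by simpa using hm, rfl⟩
    exact h1.bddAbove
  · have hq : 0 < p.toReal := ENNReal.toReal_pos (by
      have := (Fact.out : 1 ≤ p)
      intro h0
      rw [h0] at this
      simp at this) hp
    apply memℓp_gen
    refine summable_of_ne_finset_zero (s := ξ.support) fun m hm => ?_
    rw [Finsupp.notMem_support_iff.1 hm, norm_zero, Real.zero_rpow hq.ne']

private noncomputable def toL (p : ℝ≥0∞) [Fact (1 ≤ p)] (ξ : ℤ →₀ V) : lp (fun _ : ℤ => V) p :=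
  ⟨fun m => ξ m, memF ξ⟩

private noncomputable def Nv (p : ℝ≥0∞) [Fact (1 ≤ p)] (ξ : ℤ →₀ V) : ℝ := ‖toL p ξ‖

private theorem Nv_nonneg (ξ : ℤ →₀ V) : 0 ≤ Nv p ξ := norm_nonneg _

private theorem Nv_add (ξ η : ℤ →₀ V) : Nv p (ξ + η) ≤ Nv p ξ + Nv p η := by
  have e : toL p (ξ + η) = toL p ξ + toL p η := by
    ext m
    rfl
  unfold Nv
  rw [e]
  exact norm_add_le _ _

private theorem Nv_pow (hp : 0 < p.toReal) (ξ : ℤ →₀ V) : Nv p ξ ^ p.toReal = ∑' m : ℤ, ‖ξ m‖ ^ p.toReal :=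
  lp.norm_rpow_eq_tsum hp (toL p ξ)

private theorem Nv_le (hp : 0 < p.toReal) (ξ η : ℤ →₀ V) {c : ℝ} (hc : 0 ≤ c) :
    (∑' m : ℤ, ‖ξ m‖ ^ p.toReal ≤ c ^ p.toReal * ∑' m : ℤ, ‖η m‖ ^ p.toReal) ↔ Nv p ξ ≤ c * Nv p η := by
  rw [← Nv_pow hp, ← Nv_pow hp, ← Real.mul_rpow hc (Nv_nonneg _)]
  exact Real.rpow_le_rpow_iff (Nv_nonneg _) (mul_nonneg hc (Nv_nonneg _)) hp

private theorem Nv_smul [NormedSpace ℂ V] (a : ℂ) (ξ : ℤ →₀ V) : Nv p (a • ξ) = ‖a‖ * Nv p ξ := by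
  have e : toL p (a • ξ) = a • toL p ξ := by
    ext m
    rfl
  unfold Nv
  rw [e, norm_smul]

end vec

/-! ### the action -/

private theorem act_supp (h : X ≃ₜ X) (ρ : Rep p X) (g : FS X) (ξ : ℤ →₀ LY p ρ.M) (m : ℤ)
    (hm : act p h ρ g ξ m ≠ 0) : m ∈ image₂ (fun a b : ℤ => a + b) g.support ξ.support := by
  unfold act Finsupp.sum at hm
  obtain ⟨n, hn, h1⟩ := Finset.exists_ne_zero_of_sum_ne_zero hm
  rw [mem_image₂]
  refine ⟨n, hn, m - n, ?_, by ring⟩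
  rw [Finsupp.mem_support_iff]
  intro h2
  apply h1
  show ρ.π (cmp h m (g n)) (ξ (m - n)) = 0
  rw [h2, piZeroR]

private noncomputable def aF (h : X ≃ₜ X) (ρ : Rep p X) (g : FS X) (ξ : ℤ →₀ LY p ρ.M) : ℤ →₀ LY p ρ.M :=
  Finsupp.onFinset (image₂ (fun a b : ℤ => a + b) g.support ξ.support) (act p h ρ g ξ)
    (act_supp h ρ g ξ)

private theorem aF_apply (h : X ≃ₜ X) (ρ : Rep p X) (g : FS X) (ξ : ℤ →₀ LY p ρ.M) (m : ℤ) :
    aF h ρ g ξ m = act p h ρ g ξ m := rfl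

private theorem aF_add (h : X ≃ₜ X) (ρ : Rep p X) (g g' : FS X) (ξ : ℤ →₀ LY p ρ.M) :
    aF h ρ (g + g') ξ = aF h ρ g ξ + aF h ρ g' ξ := by
  ext1 m
  rw [Finsupp.add_apply, aF_apply, aF_apply, aF_apply]
  unfold act
  rw [Finsupp.sum_add_index']
  · intro n
    rw [cmpZero, piZeroL]
  · intro n f f'
    rw [cmpAdd, ρ.add]

private theorem aF_smul (h : X ≃ₜ X) (ρ : Rep p X) (a : ℂ) (g : FS X) (ξ : ℤ →₀ LY p ρ.M) :
    aF h ρ (a • g) ξ = a • aF h ρ g ξ := by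
  ext1 m
  rw [Finsupp.smul_apply, aF_apply, aF_apply]
  unfold act
  rw [Finsupp.sum_smul_index' (fun n => by rw [cmpZero, piZeroL]), Finsupp.smul_sum]
  refine Finsupp.sum_congr fun n _ => ?_
  rw [cmpSmul, ρ.smul]

private theorem aF_single (h : X ≃ₜ X) (ρ : Rep p X) (n : ℤ) (f : C(X, ℂ)) (ξ : ℤ →₀ LY p ρ.M) (m : ℤ) :
    aF h ρ (Finsupp.single n f) ξ m = ρ.π (cmp h m f) (ξ (m - n)) := by
  rw [aF_apply]
  unfold act
  rw [Finsupp.sum_single_index]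
  rw [cmpZero, piZeroL]

private theorem aF_tw (h : X ≃ₜ X) (ρ : Rep p X) (g g' : FS X) (ξ : ℤ →₀ LY p ρ.M) :
    aF h ρ (tw h g g') ξ = aF h ρ g (aF h ρ g' ξ) := by
  ext1 m
  rw [aF_apply, aF_apply]
  unfold act tw
  have z : ∀ n : ℤ, ρ.π (cmp h m 0) (ξ (m - n)) = 0 := fun n => by rw [cmpZero, piZeroL]
  have a : ∀ (n : ℤ) (f f' : C(X, ℂ)), ρ.π (cmp h m (f + f')) (ξ (m - n)) =
      ρ.π (cmp h m f) (ξ (m - n)) + ρ.π (cmp h m f') (ξ (m - n)) := fun n f f' => by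
    rw [cmpAdd, ρ.add]
  rw [Finsupp.sum_sum_index z a]
  refine Finsupp.sum_congr fun n _ => ?_
  rw [Finsupp.sum_sum_index z a, aF_apply]
  unfold act
  have e := map_finsuppSum (piHom ρ (cmp h m (g n))) g' fun n' f' => ρ.π (cmp h (m - n) f') (ξ (m - n - n'))
  refine Eq.trans ?_ e.symm
  refine Finsupp.sum_congr fun n' _ => ?_
  rw [Finsupp.sum_single_index (z _)]
  show ρ.π (cmp h m (g n * cmp h (-n) (g' n'))) (ξ (m - (n + n'))) =
    ρ.π (cmp h m (g n)) (ρ.π (cmp h (m - n) (g' n')) (ξ (m - n - n')))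
  rw [cmpTw, ρ.mul, sub_sub]

private theorem aF_single_le (hp : 0 < p.toReal) (h : X ≃ₜ X) (ρ : Rep p X) (n : ℤ) (f : C(X, ℂ))
    (ξ : ℤ →₀ LY p ρ.M) : Nv p (aF h ρ (Finsupp.single n f) ξ) ≤ ‖f‖ * Nv p ξ := by
  rw [← Nv_le hp _ _ (norm_nonneg f)]
  have e : ∑' m : ℤ, ‖ξ m‖ ^ p.toReal = ∑' m : ℤ, ‖ξ (m - n)‖ ^ p.toReal :=
    ((Equiv.subRight n).tsum_eq fun m => ‖ξ m‖ ^ p.toReal).symm
  have s : Summable fun m : ℤ => ‖ξ (m - n)‖ ^ p.toReal := by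
    have s0 : Summable fun m : ℤ => ‖ξ m‖ ^ p.toReal := by
      refine summable_of_ne_finset_zero (s := ξ.support) fun m hm => ?_
      rw [Finsupp.notMem_support_iff.1 hm, norm_zero, Real.zero_rpow hp.ne']
    exact (Equiv.subRight n).summable_iff.2 s0
  rw [e, ← tsum_mul_left]
  have b : ∀ m : ℤ, ‖aF h ρ (Finsupp.single n f) ξ m‖ ^ p.toReal ≤ ‖f‖ ^ p.toReal * ‖ξ (m - n)‖ ^ p.toReal := by
    intro m
    rw [aF_single, ← Real.mul_rpow (norm_nonneg _) (norm_nonneg _)]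
    refine Real.rpow_le_rpow (norm_nonneg _) ?_ hp.le
    refine ((ρ.contr _).bound _).trans ?_
    exact mul_le_mul_of_nonneg_right (normCmp h m f) (norm_nonneg _)
  exact Summable.tsum_le_tsum b
    (Summable.of_nonneg_of_le (fun m => by positivity) b (s.mul_left _)) (s.mul_left _)

/-! ### the norm -/

private def Cs (p : ℝ≥0∞) [Fact (1 ≤ p)] (h : X ≃ₜ X) (g : FS X) : Set ℝ :=
  {c : ℝ | 0 ≤ c ∧ ∀ (ρ : Rep p X) (ξ : ℤ →₀ LY p ρ.M),
    ∑' m : ℤ, ‖act p h ρ g ξ m‖ ^ p.toReal ≤ c ^ p.toReal * ∑' m : ℤ, ‖ξ m‖ ^ p.toReal}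

private theorem mem_Cs (hp : 0 < p.toReal) (h : X ≃ₜ X) (g : FS X) (c : ℝ) :
    c ∈ Cs p h g ↔ 0 ≤ c ∧ ∀ (ρ : Rep p X) (ξ : ℤ →₀ LY p ρ.M), Nv p (aF h ρ g ξ) ≤ c * Nv p ξ := by
  constructor
  · rintro ⟨h1, h2⟩
    exact ⟨h1, fun ρ ξ => (Nv_le hp (aF h ρ g ξ) ξ h1).1 (h2 ρ ξ)⟩
  · rintro ⟨h1, h2⟩
    exact ⟨h1, fun ρ ξ => (Nv_le hp (aF h ρ g ξ) ξ h1).2 (h2 ρ ξ)⟩

private theorem Cs_add (hp : 0 < p.toReal) (h : X ≃ₜ X) {g g' : FS X} {c c' : ℝ} (h1 : c ∈ Cs p h g)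
    (h2 : c' ∈ Cs p h g') : c + c' ∈ Cs p h (g + g') := by
  rw [mem_Cs hp] at *
  refine ⟨add_nonneg h1.1 h2.1, fun ρ ξ => ?_⟩
  rw [aF_add, add_mul]
  exact (Nv_add _ _).trans (add_le_add (h1.2 ρ ξ) (h2.2 ρ ξ))

private theorem Cs_single (hp : 0 < p.toReal) (h : X ≃ₜ X) (n : ℤ) (f : C(X, ℂ)) :
    ‖f‖ ∈ Cs p h (Finsupp.single n f) := by
  rw [mem_Cs hp]
  exact ⟨norm_nonneg _, fun ρ ξ => aF_single_le hp h ρ n f ξ⟩

private theorem Cs_nonempty (hp : 0 < p.toReal) (h : X ≃ₜ X) (g : FS X) : (Cs p h g).Nonempty := by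
  induction g using Finsupp.induction_linear with
  | zero =>
    have h1 := Cs_single (p := p) hp h 0 0
    rw [Finsupp.single_zero] at h1
    exact ⟨_, h1⟩
  | add f g hf hg =>
    obtain ⟨c, hc⟩ := hf
    obtain ⟨c', hc'⟩ := hg
    exact ⟨c + c', Cs_add hp h hc hc'⟩
  | single n f => exact ⟨_, Cs_single hp h n f⟩

private theorem Cs_bdd (h : X ≃ₜ X) (g : FS X) : BddBelow (Cs p h g) := ⟨0, fun _ hc => hc.1⟩

private theorem nrm_mem (hp : 0 < p.toReal) (h : X ≃ₜ X) (g : FS X) : nrm p h g ∈ Cs p h g := by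
  have e : nrm p h g = sInf (Cs p h g) := rfl
  have h0 : 0 ≤ nrm p h g := by
    rw [e]
    exact Real.sInf_nonneg fun c hc => hc.1
  rw [mem_Cs hp]
  refine ⟨h0, fun ρ ξ => ?_⟩
  rcases (Nv_nonneg (p := p) ξ).eq_or_lt with h1 | h1
  · obtain ⟨c, hc⟩ := Cs_nonempty (p := p) hp h g
    rw [mem_Cs hp] at hc
    have := hc.2 ρ ξ
    rw [← h1, mul_zero] at this ⊢
    exact this
  · rw [← div_le_iff₀ h1, e]
    refine le_csInf (Cs_nonempty hp h g) fun c hc => ?_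
    rw [mem_Cs hp] at hc
    rw [div_le_iff₀ h1]
    exact hc.2 ρ ξ

private theorem nrm_le (h : X ≃ₜ X) {g : FS X} {c : ℝ} (hc : c ∈ Cs p h g) : nrm p h g ≤ c :=
  csInf_le (Cs_bdd h g) hc

theorem hNRG : StNrg := by
  intro p _ hpt X _ _ h
  have hp : 0 < p.toReal := ENNReal.toReal_pos (by
    have := (Fact.out : 1 ≤ p)
    intro h0
    rw [h0] at this
    simp at this) hpt
  refine ⟨fun g ρ ξ => (nrm_mem hp h g).2 ρ ξ, fun g => (nrm_mem hp h g).1,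
    fun g g' => nrm_le h (Cs_add hp h (nrm_mem hp h g) (nrm_mem hp h g')), fun c g => ?_,
    fun g g' => ?_, fun f => nrm_le h (Cs_single hp h 0 f)⟩
  · apply nrm_le h
    have h1 := nrm_mem hp h g
    rw [mem_Cs hp] at h1 ⊢
    refine ⟨mul_nonneg (norm_nonneg _) h1.1, fun ρ ξ => ?_⟩
    rw [aF_smul, Nv_smul, mul_assoc]
    exact mul_le_mul_of_nonneg_left (h1.2 ρ ξ) (norm_nonneg _)
  · apply nrm_le h
    have h1 := nrm_mem hp h g
    have h2 := nrm_mem hp h g'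
    rw [mem_Cs hp] at h1 h2 ⊢
    refine ⟨mul_nonneg h1.1 h2.1, fun ρ ξ => ?_⟩
    rw [aF_tw, mul_assoc]
    exact (h1.2 ρ _).trans (mul_le_mul_of_nonneg_left (h2.2 ρ ξ) h1.1)

end Pool.Agent.Helper78.XP
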